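import Mathlib

set_option autoImplicit false

namespace Pool.Agent.Q16.Loop

/-- bi-infinite sequences -/
abbrev Seq (n : ℕ) := ℤ → Fin n

variable {n : ℕ}

/-- shift -/
def sh (j : ℤ) (x : Seq n) : Seq n := fun i => x (i + j)

theorem sh_sh (i j : ℤ) (x : Seq n) : sh i (sh j x) = sh (i + j) x := by
  funext k; simp only [sh, add_assoc]

theorem sh_zero (x : Seq n) : sh 0 x = x := by funext k; simp [sh]

theorem sh_eq {i j : ℤ} (h : i = j) (x : Seq n) : sh i x = sh j x := by rw [h]

/-- agreement on `[-r, r]` -/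
def Ag (r : ℕ) (x y : Seq n) : Prop := ∀ j : ℤ, |j| ≤ r → x j = y j

theorem Ag.mono {r s : ℕ} {x y : Seq n} (h : Ag s x y) (hrs : r ≤ s) : Ag r x y :=
  fun j hj => h j (hj.trans (by exact_mod_cast hrs))

theorem Ag.symm {r : ℕ} {x y : Seq n} (h : Ag r x y) : Ag r y x := fun j hj => (h j hj).symm

theorem Ag.shift {r s : ℕ} {x y : Seq n} (h : Ag (r + s) x y) {j : ℤ} (hj : |j| ≤ s) :
    Ag r (sh j x) (sh j y) := by
  intro i hi
  apply h
  have := abs_add_le i j
  push_cast
  linarith

/-- special: the block on `[0, L)` has a period at most `K` -/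
def Sp (K L : ℕ) (x : Seq n) : Prop :=
  ∃ q : ℕ, 1 ≤ q ∧ q ≤ K ∧ ∀ i : ℕ, i + q < L → x i = x (i + q : ℕ)

theorem Sp_of_agree {K L : ℕ} {x y : Seq n} (h : ∀ i : ℕ, i < L → x i = y i) (hx : Sp K L x) :
    Sp K L y := by
  obtain ⟨q, h1, h2, h3⟩ := hx
  refine ⟨q, h1, h2, fun i hi => ?_⟩
  rw [← h i (by omega), ← h (i + q) hi]
  exact h3 i hi

theorem Ag.sp {K L : ℕ} {x y : Seq n} (h : Ag L x y) : Sp K L x ↔ Sp K L y := by
  have h1 : ∀ i : ℕ, i < L → x i = y i := fun i hi => h i (by
    rw [abs_of_nonneg (by positivity)]; exact_mod_cast hi.le)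
  exact ⟨Sp_of_agree h1, Sp_of_agree (fun i hi => (h1 i hi).symm)⟩

/-- no special time within distance `K` -/
def Un (K L : ℕ) (x : Seq n) : Prop := ∀ j : ℤ, |j| ≤ K → ¬ Sp K L (sh j x)

theorem Ag.un {K L : ℕ} {x y : Seq n} (h : Ag (L + K) x y) : Un K L x ↔ Un K L y := by
  constructor
  · intro hx j hj hs
    exact hx j hj ((h.shift hj).sp.2 hs)
  · intro hx j hj hs
    exact hx j hj ((h.shift hj).sp.1 hs)

/-- number of blocks -/
def nC (n L : ℕ) : ℕ := Fintype.card (Fin L → Fin n)

/-- the colour of a sequence: its block on `[0, L)` -/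
noncomputable def code (L : ℕ) (x : Seq n) : ℕ :=
  (Fintype.equivFin (Fin L → Fin n) (fun i => x (i : ℕ)) : ℕ)

theorem code_lt (L : ℕ) (x : Seq n) : code L x < nC n L :=
  (Fintype.equivFin (Fin L → Fin n) (fun i => x (i : ℕ))).2

theorem code_eq {L : ℕ} {x y : Seq n} (h : code L x = code L y) (i : ℕ) (hi : i < L) :
    x i = y i := by
  have h1 := (Fintype.equivFin (Fin L → Fin n)).injective (Fin.ext h)
  exact congrFun h1 ⟨i, hi⟩

theorem Ag.code {L : ℕ} {x y : Seq n} (h : Ag L x y) : code L x = code L y := by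
  unfold Loop.code
  have : (fun i : Fin L => x ((i : ℕ) : ℤ)) = fun i : Fin L => y ((i : ℕ) : ℤ) := by
    funext i
    apply h
    rw [abs_of_nonneg (by positivity)]
    exact_mod_cast i.2.le
  rw [this]

theorem sp_of_code_eq {K L : ℕ} {x : Seq n} {j : ℕ} (h1 : 1 ≤ j) (h2 : j ≤ K)
    (h : code L x = code L (sh j x)) : Sp K L x := by
  refine ⟨j, h1, h2, fun i hi => ?_⟩
  have := code_eq h i (by omega)
  rw [this]
  simp [sh]

/-- greedy separated sets, by colours -/
def Ms (K L : ℕ) : ℕ → Seq n → Prop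
  | 0, _ => False
  | c + 1, x => Ms K L c x ∨
      (Un K L x ∧ code L x = c ∧ ∀ j : ℤ, j ≠ 0 → |j| ≤ K → ¬ Ms K L c (sh j x))

theorem Ms_un {K L : ℕ} (c : ℕ) : ∀ x : Seq n, Ms K L c x → Un K L x := by
  induction c with
  | zero => intro x h; exact h.elim
  | succ c ih =>
    intro x h
    rcases h with h | h
    · exact ih x h
    · exact h.1

theorem Ms_mono {K L : ℕ} {c d : ℕ} (h : c ≤ d) (x : Seq n) (hx : Ms K L c x) : Ms K L d x := by
  induction h with
  | refl => exact hx
  | step _ ih => exact Or.inl ih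

theorem Ms_sep {K L : ℕ} (c : ℕ) : ∀ (x : Seq n) (j : ℤ), j ≠ 0 → |j| ≤ K → Ms K L c x →
    ¬ Ms K L c (sh j x) := by
  induction c with
  | zero => intro x j _ _ h; exact h.elim
  | succ c ih =>
    intro x j hj hjK h h'
    rcases h with h | ⟨hu, hc, hn⟩
    · rcases h' with h' | ⟨hu', hc', hn'⟩
      · exact ih x j hj hjK h h'
      · apply hn' (-j) (by simpa using hj) (by rwa [abs_neg])
        rw [sh_sh, sh_eq (by ring : -j + j = 0), sh_zero]
        exact h
    · rcases h' with h' | ⟨hu', hc', hn'⟩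
      · exact hn j hj hjK h'
      · have he : code L x = code L (sh j x) := hc.trans hc'.symm
        rcases lt_or_gt_of_ne hj with hneg | hpos
        · -- `x` is a forward shift of `sh j x`
          obtain ⟨m, hm⟩ := Int.eq_ofNat_of_zero_le (show 0 ≤ -j by omega)
          have h1 : 1 ≤ m := by omega
          have h2 : m ≤ K := by
            have : |j| = -j := abs_of_neg hneg
            omega
          have h3 : sh (m : ℤ) (sh j x) = x := by
            rw [sh_sh, sh_eq (by omega : (m : ℤ) + j = 0), sh_zero]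
          have h4 : code L (sh j x) = code L (sh (m : ℤ) (sh j x)) := by rw [h3, he]
          have h5 := sp_of_code_eq h1 h2 h4
          exact hu j hjK h5
        · obtain ⟨m, hm⟩ := Int.eq_ofNat_of_zero_le (show 0 ≤ j by omega)
          have h1 : 1 ≤ m := by omega
          have h2 : m ≤ K := by
            have : |j| = j := abs_of_pos hpos
            omega
          subst hm
          have h5 := sp_of_code_eq h1 h2 he
          apply hu 0 (by simp)
          rw [sh_zero]
          exact h5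

theorem Ms_local {K L : ℕ} (c : ℕ) : ∀ x y : Seq n, Ag (L + K + c * K) x y →
    (Ms K L c x ↔ Ms K L c y) := by
  induction c with
  | zero => intro x y _; exact Iff.rfl
  | succ c ih =>
    intro x y h
    have h0 : Ag (L + K + c * K) x y := h.mono (by rw [Nat.succ_mul]; omega)
    have hs : ∀ j : ℤ, |j| ≤ K → (Ms K L c (sh j x) ↔ Ms K L c (sh j y)) := by
      intro j hj
      apply ih
      apply Ag.shift _ hj
      exact h.mono (by rw [Nat.succ_mul]; omega)
    have hu : Un K L x ↔ Un K L y := (h.mono (by omega : L + K ≤ L + K + (c + 1) * K)).un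
    have hc : code L x = code L y := (h.mono (by omega : L ≤ L + K + (c + 1) * K)).code
    change (Ms K L c x ∨ _) ↔ (Ms K L c y ∨ _)
    rw [ih x y h0, hu, hc]
    constructor
    · rintro (h1 | ⟨h1, h2, h3⟩)
      · exact Or.inl h1
      · exact Or.inr ⟨h1, h2, fun j hj hjK hM => h3 j hj hjK ((hs j hjK).2 hM)⟩
    · rintro (h1 | ⟨h1, h2, h3⟩)
      · exact Or.inl h1
      · exact Or.inr ⟨h1, h2, fun j hj hjK hM => h3 j hj hjK ((hs j hjK).1 hM)⟩

/-- the maximal separated set -/
def MM (K L : ℕ) (x : Seq n) : Prop := Ms K L (nC n L) x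

theorem MM_max {K L : ℕ} {x : Seq n} (hx : Un K L x) : ∃ j : ℤ, |j| ≤ K ∧ MM K L (sh j x) := by
  by_cases h : ∃ j : ℤ, j ≠ 0 ∧ |j| ≤ K ∧ Ms K L (code L x) (sh j x)
  · obtain ⟨j, _, hj, hM⟩ := h
    exact ⟨j, hj, Ms_mono (code_lt L x).le _ hM⟩
  · push Not at h
    refine ⟨0, by simp, ?_⟩
    rw [sh_zero]
    have h1 : Ms K L (code L x + 1) x := Or.inr ⟨hx, rfl, fun j hj hjK => h j hj hjK⟩
    exact Ms_mono (code_lt L x) _ h1

/-- anchors -/
def An (K L : ℕ) (x : Seq n) : Prop := Sp K L x ∨ MM K L x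

/-- locality radius of anchors -/
def rA (n K L : ℕ) : ℕ := L + K + nC n L * K

theorem Ag.an {K L : ℕ} {x y : Seq n} (h : Ag (rA n K L) x y) : An K L x ↔ An K L y := by
  unfold An MM
  rw [(h.mono (by unfold rA; omega : L ≤ rA n K L)).sp, Ms_local _ x y h]

theorem sp_step {K L : ℕ} (hL : 3 * K ≤ L) {x : Seq n} {g : ℕ} (hg1 : 1 ≤ g) (hgK : g ≤ K)
    (hx : Sp K L x) (hy : Sp K L (sh g x)) : Sp K L (sh 1 x) := by
  obtain ⟨q, q1, q2, q3⟩ := hx
  obtain ⟨p, p1, p2, p3⟩ := hy
  -- period `p` on `[g, g + L)`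
  have hp : ∀ i : ℕ, g ≤ i → i + p < g + L → x i = x (i + p : ℕ) := by
    intro i hi hi2
    have := p3 (i - g) (by omega)
    simp only [sh] at this
    have e1 : (((i - g : ℕ) : ℤ) + (g : ℤ)) = (i : ℤ) := by omega
    have e2 : (((i - g + p : ℕ) : ℤ) + (g : ℤ)) = ((i + p : ℕ) : ℤ) := by omega
    rw [e1, e2] at this
    exact this
  refine ⟨q, q1, q2, fun i hi => ?_⟩
  simp only [sh]
  have e1 : ((i : ℤ) + 1) = ((i + 1 : ℕ) : ℤ) := by push_cast; ring
  have e2 : (((i + q : ℕ) : ℤ) + 1) = ((i + 1 + q : ℕ) : ℤ) := by push_cast; ring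
  rw [e1, e2]
  by_cases hlt : i + 1 + q < L
  · exact q3 (i + 1) hlt
  · have hL' : i + 1 + q = L := by omega
    have h1 := hp (L - p) (by omega) (by omega)
    have e3 : L - p + p = L := by omega
    rw [e3] at h1
    have h2 := q3 (L - p - q) (by omega)
    have e4 : L - p - q + q = L - p := by omega
    rw [e4] at h2
    have h3 := hp (L - q - p) (by omega) (by omega)
    have e5 : L - q - p + p = L - q := by omega
    have e6 : L - q - p = L - p - q := by omega
    rw [e5, e6] at h3
    have e7 : i + 1 = L - q := by omega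
    rw [hL', e7, ← h1, ← h2, ← h3]

theorem an_gap {K L : ℕ} (hL : 3 * K ≤ L) {x : Seq n} {g : ℕ} (hg1 : 1 ≤ g) (hgK : g ≤ K)
    (hx : An K L x) (hy : An K L (sh g x)) : Sp K L x ∧ Sp K L (sh 1 x) := by
  have habs : |(g : ℤ)| ≤ K := by rw [abs_of_nonneg (by positivity)]; exact_mod_cast hgK
  have h1 : Sp K L x := by
    rcases hx with h | h
    · exact h
    · exfalso
      rcases hy with h' | h'
      · exact Ms_un _ x h g habs h'
      · exact Ms_sep _ x g (by omega) habs h h'
  have h2 : Sp K L (sh g x) := by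
    rcases hy with h' | h'
    · exact h'
    · exfalso
      apply Ms_un _ _ h' (-g) (by rwa [abs_neg])
      rw [sh_sh, sh_eq (by ring : -(g : ℤ) + g = 0), sh_zero]
      exact h1
  exact ⟨h1, sp_step hL hg1 hgK h1 h2⟩

theorem an_exists (K L : ℕ) (x : Seq n) : ∃ j : ℕ, 1 ≤ j ∧ j ≤ 2 * K + 1 ∧ An K L (sh j x) := by
  have key : ∃ j : ℤ, |j| ≤ K ∧ An K L (sh (j + (K + 1)) x) := by
    by_cases hU : Un K L (sh (K + 1) x)
    · obtain ⟨j, hj, hM⟩ := MM_max hU
      rw [sh_sh] at hM
      exact ⟨j, hj, Or.inr hM⟩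
    · unfold Un at hU
      push Not at hU
      obtain ⟨j, hj, hS⟩ := hU
      rw [sh_sh] at hS
      exact ⟨j, hj, Or.inl hS⟩
  obtain ⟨j, hj, hA⟩ := key
  rw [abs_le] at hj
  refine ⟨(j + (K + 1)).toNat, by omega, by omega, ?_⟩
  rw [sh_eq (by omega : (((j + (K + 1)).toNat : ℕ) : ℤ) = j + (K + 1))]
  exact hA

theorem an_exists_next (K L : ℕ) (x : Seq n) : ∃ q : ℕ, An K L (sh (q + 1 : ℕ) x) := by
  obtain ⟨j, h1, _, h3⟩ := an_exists K L x
  refine ⟨j - 1, ?_⟩
  rw [sh_eq (by omega : (((j - 1 + 1 : ℕ)) : ℤ) = (j : ℤ))]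
  exact h3

theorem an_exists_prev' (K L : ℕ) (x : Seq n) : ∃ p : ℕ, p ≤ 2 * K + 1 ∧ An K L (sh (-(p : ℤ)) x) := by
  obtain ⟨j, h1, h2, h3⟩ := an_exists K L (sh (-(2 * K + 2 : ℕ)) x)
  rw [sh_sh] at h3
  refine ⟨2 * K + 2 - j, by omega, ?_⟩
  rw [sh_eq (by omega : (-((2 * K + 2 - j : ℕ) : ℤ)) = (j : ℤ) + -((2 * K + 2 : ℕ) : ℤ))]
  exact h3

theorem an_exists_prev (K L : ℕ) (x : Seq n) : ∃ p : ℕ, An K L (sh (-(p : ℤ)) x) :=
  let ⟨p, _, h⟩ := an_exists_prev' K L x; ⟨p, h⟩

open Classical in
/-- distance to the previous anchor -/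
noncomputable def prev (K L : ℕ) (x : Seq n) : ℕ := Nat.find (an_exists_prev K L x)

open Classical in
/-- distance to the next anchor, minus one -/
noncomputable def next (K L : ℕ) (x : Seq n) : ℕ := Nat.find (an_exists_next K L x)

theorem prev_spec (K L : ℕ) (x : Seq n) : An K L (sh (-(prev K L x : ℤ)) x) := by
  classical
  exact Nat.find_spec (an_exists_prev K L x)

theorem prev_min {K L : ℕ} {x : Seq n} {m : ℕ} (h : m < prev K L x) :
    ¬ An K L (sh (-(m : ℤ)) x) := by
  classical
  exact Nat.find_min (an_exists_prev K L x) h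

theorem next_spec (K L : ℕ) (x : Seq n) : An K L (sh (next K L x + 1 : ℕ) x) := by
  classical
  exact Nat.find_spec (an_exists_next K L x)

theorem next_min {K L : ℕ} {x : Seq n} {m : ℕ} (h : m < next K L x) :
    ¬ An K L (sh (m + 1 : ℕ) x) := by
  classical
  exact Nat.find_min (an_exists_next K L x) h

theorem prev_le (K L : ℕ) (x : Seq n) : prev K L x ≤ 2 * K + 1 := by
  obtain ⟨p, hp, h⟩ := an_exists_prev' K L x
  by_contra hc
  exact prev_min (by omega : p < prev K L x) h

theorem next_le (K L : ℕ) (x : Seq n) : next K L x ≤ 2 * K := by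
  obtain ⟨j, h1, h2, h3⟩ := an_exists K L x
  by_contra hc
  apply next_min (by omega : j - 1 < next K L x)
  rw [sh_eq (by omega : (((j - 1 + 1 : ℕ)) : ℤ) = (j : ℤ))]
  exact h3

theorem prev_eq {K L : ℕ} {x : Seq n} {p : ℕ} (h1 : An K L (sh (-(p : ℤ)) x))
    (h2 : ∀ m < p, ¬ An K L (sh (-(m : ℤ)) x)) : prev K L x = p := by
  apply le_antisymm
  · by_contra hc
    exact prev_min (not_le.1 hc) h1
  · by_contra hc
    exact h2 _ (not_le.1 hc) (prev_spec K L x)

theorem next_eq {K L : ℕ} {x : Seq n} {q : ℕ} (h1 : An K L (sh (q + 1 : ℕ) x))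
    (h2 : ∀ m < q, ¬ An K L (sh (m + 1 : ℕ) x)) : next K L x = q := by
  apply le_antisymm
  · by_contra hc
    exact next_min (not_le.1 hc) h1
  · by_contra hc
    exact h2 _ (not_le.1 hc) (next_spec K L x)

/-- closed walk of length `g` in the cycle `ZMod l` -/
def walk (l g p : ℕ) : ZMod l :=
  if Even g then (if Even p then 0 else 1)
  else if p ≤ l then (p : ZMod l) else (if Even (p - l) then 0 else 1)

/-- adjacency in the cycle -/
def Cy (l : ℕ) (u v : ZMod l) : Prop := v = u + 1 ∨ u = v + 1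

theorem walk_zero (l g : ℕ) : walk l g 0 = 0 := by
  unfold walk
  split_ifs <;> simp_all

theorem walk_end {l g : ℕ} (hl : Odd l) (h : l ≤ g) : walk l g g = 0 := by
  unfold walk
  split_ifs with h1 h2 h3
  · rfl
  · have : g = l := le_antisymm h2 h
    rw [this]; simp
  · rfl
  · exfalso
    apply h3
    rw [Nat.not_even_iff_odd] at h1
    exact Nat.Odd.sub_odd h1 hl

theorem walk_step (l g p : ℕ) : Cy l (walk l g p) (walk l g (p + 1)) := by
  unfold walk Cy
  by_cases h1 : Even g
  · simp only [h1, if_true]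
    by_cases h2 : Even p
    · have h3 : ¬ Even (p + 1) := by rw [Nat.even_add_one]; simpa using h2
      simp [h2, h3]
    · have h3 : Even (p + 1) := by rw [Nat.even_add_one]; exact h2
      simp [h2, h3]
  · simp only [h1, if_false]
    rcases lt_trichotomy p l with h2 | h2 | h2
    · rw [if_pos h2.le, if_pos (Nat.succ_le_of_lt h2)]
      left; push_cast; rfl
    · subst h2
      have : ¬ (p + 1 ≤ p) := by omega
      simp [this]
    · have h3 : ¬ (p ≤ l) := by omega
      have h4 : ¬ (p + 1 ≤ l) := by omega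
      have h5 : p + 1 - l = p - l + 1 := by omega
      simp only [h3, h4, if_false, h5]
      by_cases h6 : Even (p - l)
      · have h7 : ¬ Even (p - l + 1) := by rw [Nat.even_add_one]; simpa using h6
        simp [h6, h7]
      · have h7 : Even (p - l + 1) := by rw [Nat.even_add_one]; exact h6
        simp [h6, h7]

/-- the label -/
noncomputable def lbl (l K L : ℕ) (x : Seq n) : ZMod l :=
  walk l (prev K L x + (next K L x + 1)) (prev K L x)

theorem lbl_sp {l K L : ℕ} {x : Seq n} (h : Sp K L x) : lbl l K L x = 0 := by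
  have : prev K L x = 0 := prev_eq (by
    rw [sh_eq (by simp : -((0 : ℕ) : ℤ) = 0), sh_zero]; exact Or.inl h) (fun m hm => by omega)
  rw [lbl, this, walk_zero]

theorem lbl_step {l K L : ℕ} (hl : Odd l) (hK : l ≤ K) (hL : 3 * K ≤ L) (x : Seq n) :
    Cy l (lbl l K L x) (lbl l K L (sh 1 x)) ∨ (Sp K L x ∧ Sp K L (sh 1 x)) := by
  have hl1 : 1 ≤ l := hl.pos
  by_cases hq : next K L x = 0
  · have hA : An K L (sh 1 x) := by
      have := next_spec K L x
      rw [hq] at this
      simpa using this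
    have hp0 : prev K L (sh 1 x) = 0 := prev_eq (by
      rw [sh_eq (by simp : -((0 : ℕ) : ℤ) = 0), sh_zero]; exact hA) (fun m hm => by omega)
    have hl0 : lbl l K L (sh 1 x) = 0 := by rw [lbl, hp0, walk_zero]
    by_cases hAx : An K L x
    · right
      exact an_gap hL (g := 1) le_rfl (by omega) hAx (by simpa using hA)
    · left
      have hp1 : 1 ≤ prev K L x := by
        by_contra hc
        have h0 : prev K L x = 0 := by omega
        have := prev_spec K L x
        rw [h0] at this
        rw [sh_eq (by simp : -((0 : ℕ) : ℤ) = 0), sh_zero] at this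
        exact hAx this
      have hg : l ≤ prev K L x + 1 := by
        by_contra hc
        have hgap := an_gap hL (g := prev K L x + 1) (by omega) (by omega) (prev_spec K L x) (by
          rw [sh_sh, sh_eq (by push_cast; ring : ((prev K L x + 1 : ℕ) : ℤ) + -(prev K L x : ℤ) = 1)]
          exact hA)
        have h2 := hgap.2
        rw [sh_sh] at h2
        by_cases hp2 : prev K L x = 1
        · rw [hp2, sh_eq (by simp : 1 + -((1 : ℕ) : ℤ) = 0), sh_zero] at h2
          exact hAx (Or.inl h2)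
        · apply prev_min (by omega : prev K L x - 1 < prev K L x)
          rw [sh_eq (by omega : -((prev K L x - 1 : ℕ) : ℤ) = 1 + -(prev K L x : ℤ))]
          exact Or.inl h2
      rw [hl0, lbl, hq, ← walk_end hl hg]
      exact walk_step l (prev K L x + 1) (prev K L x)
  · left
    have hnA : ¬ An K L (sh 1 x) := by
      have := next_min (by omega : 0 < next K L x)
      simpa using this
    have hp : prev K L (sh 1 x) = prev K L x + 1 := by
      apply prev_eq
      · rw [sh_sh, sh_eq (by push_cast; ring : -((prev K L x + 1 : ℕ) : ℤ) + 1 = -(prev K L x : ℤ))]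
        exact prev_spec K L x
      · intro m hm
        rcases Nat.eq_zero_or_pos m with h0 | h0
        · rw [h0, sh_eq (by simp : -((0 : ℕ) : ℤ) = 0), sh_zero]; exact hnA
        · rw [sh_sh, sh_eq (by omega : -(m : ℤ) + 1 = -((m - 1 : ℕ) : ℤ))]
          exact prev_min (by omega)
    have hn : next K L (sh 1 x) + 1 = next K L x := by
      have : next K L (sh 1 x) = next K L x - 1 := by
        apply next_eq
        · rw [sh_sh, sh_eq (by omega : ((next K L x - 1 + 1 : ℕ) : ℤ) + 1 =
            ((next K L x + 1 : ℕ) : ℤ))]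
          exact next_spec K L x
        · intro m hm
          rw [sh_sh, sh_eq (by push_cast; ring : ((m + 1 : ℕ) : ℤ) + 1 = ((m + 1 + 1 : ℕ) : ℤ))]
          exact next_min (by omega)
      omega
    unfold lbl
    rw [hp, hn, show prev K L x + 1 + next K L x = prev K L x + (next K L x + 1) by ring]
    exact walk_step _ _ _

/-- locality radius of the label -/
def rL (n K L : ℕ) : ℕ := rA n K L + (2 * K + 1)

theorem Ag.lbl {l K L : ℕ} {x y : Seq n} (h : Ag (rL n K L) x y) : lbl l K L x = lbl l K L y := by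
  have key : ∀ j : ℤ, |j| ≤ (2 * K + 1 : ℕ) → (An K L (sh j x) ↔ An K L (sh j y)) := fun j hj =>
    (Ag.shift h hj).an
  have hp : prev K L x = prev K L y := by
    apply prev_eq
    · rw [key _ (by rw [abs_neg, Nat.abs_cast]; exact_mod_cast prev_le K L y)]
      exact prev_spec K L y
    · intro m hm
      rw [key _ (by
        rw [abs_neg, Nat.abs_cast]
        have := prev_le K L y
        exact_mod_cast (by omega : m ≤ 2 * K + 1))]
      exact prev_min hm
  have hn : next K L x = next K L y := by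
    apply next_eq
    · rw [key _ (by
        rw [Nat.abs_cast]
        have := next_le K L y
        exact_mod_cast (by omega : next K L y + 1 ≤ 2 * K + 1))]
      exact next_spec K L y
    · intro m hm
      rw [key _ (by
        rw [Nat.abs_cast]
        have := next_le K L y
        exact_mod_cast (by omega : m + 1 ≤ 2 * K + 1))]
      exact next_min hm
  unfold Loop.lbl
  rw [hp, hn]

end Pool.Agent.Q16.Loop
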