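import Pool.Agent.Q16.Loop.Marker

set_option autoImplicit false

namespace Pool.Agent.Q16.Loop

universe u

variable {n : ℕ} [NeZero n]

/-- a finite word read as a bi-infinite sequence, with offset `r` -/
def ext (r : ℕ) (w : List (Fin n)) : Seq n := fun i => w.getD (i + r).toNat 0

theorem ext_cons_append (r : ℕ) (i c : Fin n) (w : List (Fin n)) (j : ℤ) (hj : -(r : ℤ) ≤ j)
    (hj2 : j + r < w.length) : sh 1 (ext r (i :: w)) j = ext r (w ++ [c]) j := by
  unfold sh ext
  have h1 : (j + 1 + r).toNat = (j + r).toNat + 1 := by omega
  rw [h1, List.getD_cons_succ, List.getD_append]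
  omega

theorem ext_cons_self (r : ℕ) (i : Fin n) (w : List (Fin n)) (j : ℤ) (hj : -(r : ℤ) ≤ j) :
    sh 1 (ext r (i :: w)) j = ext r w j := by
  unfold sh ext
  have h1 : (j + 1 + r).toNat = (j + r).toNat + 1 := by omega
  rw [h1, List.getD_cons_succ]

theorem ext_append (r : ℕ) (c : Fin n) (w : List (Fin n)) (j : ℤ)
    (hj2 : j + r < w.length) (hw : 0 < w.length) : ext r (w ++ [c]) j = ext r w j := by
  unfold ext
  rw [List.getD_append]
  omega

/-- the prefix of length `r + L` exists and is special -/
def Spl (r K L : ℕ) (w : List (Fin n)) : Prop := r + L ≤ w.length ∧ Sp K L (ext r w)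

theorem Spl_append {r K L : ℕ} (hL : 0 < L) {w : List (Fin n)} (hw : r + L ≤ w.length) (c : Fin n) :
    Spl r K L (w ++ [c]) ↔ Spl r K L w := by
  have h1 : ∀ i : ℕ, i < L → ext r (w ++ [c]) i = ext r w i := fun i hi =>
    ext_append r c w i (by omega) (by omega)
  constructor
  · rintro ⟨_, h⟩
    exact ⟨hw, Sp_of_agree h1 h⟩
  · rintro ⟨_, h⟩
    refine ⟨by simp; omega, Sp_of_agree (fun i hi => (h1 i hi).symm) h⟩

theorem Spl_unique {r K L : ℕ} (hL : 2 * K + 1 ≤ L) {w : List (Fin n)} (hw : w.length + 1 = r + L)
    {c d : Fin n} (hc : Spl r K L (w ++ [c])) (hd : Spl r K L (w ++ [d])) : c = d := by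
  obtain ⟨_, q, hq1, hq2, hq⟩ := hc
  obtain ⟨_, p, hp1, hp2, hp⟩ := hd
  have hag : ∀ i : ℕ, i + 1 < L → ext r (w ++ [c]) i = ext r (w ++ [d]) i := by
    intro i hi
    rw [ext_append r c w i (by omega) (by omega), ext_append r d w i (by omega) (by omega)]
  have hlast : ∀ e : Fin n, ext r (w ++ [e]) ((L - 1 : ℕ) : ℤ) = e := by
    intro e
    unfold ext
    have h1 : (((L - 1 : ℕ) : ℤ) + r).toNat = w.length := by omega
    rw [h1]
    simp
  have e1 := hq (L - 1 - q) (by omega)
  have e2 := hp (L - 1 - p) (by omega)
  have e3 := hq (L - 1 - q - p) (by omega)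
  have e4 := hp (L - 1 - q - p) (by omega)
  rw [show L - 1 - q + q = L - 1 by omega, hlast] at e1
  rw [show L - 1 - p + p = L - 1 by omega, hlast] at e2
  rw [show L - 1 - q - p + q = L - 1 - p by omega] at e3
  rw [show L - 1 - q - p + p = L - 1 - q by omega] at e4
  rw [← e1, ← e2, ← hag _ (by omega), ← e3, hag _ (by omega), hag _ (by omega), e4]

section tree

variable {A : Type u} (f : (Fin n → A) → A)

/-- the tree of `f`s over the words -/
def T (g : List (Fin n) → A) : ℕ → List (Fin n) → A
  | 0, w => g w
  | m + 1, w => f (fun c => T g m (w ++ [c]))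

variable {f}

theorem T_special {g : List (Fin n) → A} {a : A} (hid : f (fun _ => a) = a) {r K L D : ℕ}
    (hL : 0 < L) (hg : ∀ w, w.length = D → Spl r K L w → g w = a) :
    ∀ m w, w.length + m = D → Spl r K L w → T f g m w = a := by
  intro m
  induction m with
  | zero => intro w hw hs; exact hg w (by omega) hs
  | succ m ih =>
    intro w hw hs
    unfold T
    have : (fun c => T f g m (w ++ [c])) = fun _ => a := by
      funext c
      apply ih
      · simp; omega
      · exact (Spl_append hL hs.1 c).2 hs
    rw [this, hid]

theorem T_step {g : List (Fin n) → A} {a b₀ : A} {E : A → A → Prop}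
    (hid : ∀ x, f (fun _ => x) = x)
    (hcomp : ∀ x y : Fin n → A, (∀ i, E (x i) (y i)) → E (f x) (f y))
    (hb₀ : E a b₀)
    (habs : ∀ (j : Fin n) (b : Fin n → A), (∀ i, E a (b i)) → E a (f (Function.update b j a)))
    {r K L D : ℕ} (hL : 2 * K + 1 ≤ L) (_hDP : r + L + 1 ≤ D)
    (hg : ∀ w, w.length = D → Spl r K L w → g w = a)
    (hstep : ∀ w i c, w.length + 1 = D → ¬ (Spl r K L (i :: w) ∧ Spl r K L w) →
      E (g (i :: w)) (g (w ++ [c]))) :
    ∀ m w i, w.length + m + 1 = D → ¬ (Spl r K L (i :: w) ∧ Spl r K L w) →
      E (T f g m (i :: w)) (T f g (m + 1) w) := by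
  have hL0 : 0 < L := by omega
  intro m
  induction m with
  | zero =>
    intro w i hw hns
    have h1 : T f g 0 (i :: w) = f (fun _ => g (i :: w)) := by rw [hid]; rfl
    rw [h1]
    show E _ (f (fun c => T f g 0 (w ++ [c])))
    apply hcomp
    intro c
    exact hstep w i c (by omega) hns
  | succ m ih =>
    intro w i hw hns
    by_cases hbig : r + L ≤ w.length
    · show E (f (fun c => T f g m ((i :: w) ++ [c]))) (f (fun c => T f g (m + 1) (w ++ [c])))
      apply hcomp
      intro c
      apply ih (w ++ [c]) i (by simp; omega)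
      rw [← List.cons_append, Spl_append hL0 (by simp; omega), Spl_append hL0 hbig]
      exact hns
    · by_cases hsmall : w.length + 1 < r + L
      · show E (f (fun c => T f g m ((i :: w) ++ [c]))) (f (fun c => T f g (m + 1) (w ++ [c])))
        apply hcomp
        intro c
        apply ih (w ++ [c]) i (by simp; omega)
        rintro ⟨_, h, _⟩
        simp at h
        omega
      · have hw1 : w.length + 1 = r + L := by omega
        by_cases hs : Spl r K L (i :: w)
        · have hTi : T f g (m + 1) (i :: w) = a :=
            T_special (hid a) hL0 hg (m + 1) (i :: w) (by simp; omega) hs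
          rw [hTi]
          have hTic : ∀ c, T f g m (i :: (w ++ [c])) = a := by
            intro c
            apply T_special (hid a) hL0 hg m _ (by simp; omega)
            rw [← List.cons_append, Spl_append hL0 (by simp; omega)]
            exact hs
          have hN : ∀ c, ¬ Spl r K L (w ++ [c]) → E a (T f g (m + 1) (w ++ [c])) := by
            intro c hc
            have := ih (w ++ [c]) i (by simp; omega) (fun h => hc h.2)
            rwa [hTic c] at this
          show E a (f (fun c => T f g (m + 1) (w ++ [c])))
          by_cases hex : ∃ c, Spl r K L (w ++ [c])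
          · obtain ⟨c, hc⟩ := hex
            have hupd : (fun d => T f g (m + 1) (w ++ [d])) =
                Function.update (Function.update (fun d => T f g (m + 1) (w ++ [d])) c b₀) c a := by
              funext d
              by_cases hdc : d = c
              · subst hdc
                rw [Function.update_self]
                exact T_special (hid a) hL0 hg (m + 1) _ (by simp; omega) hc
              · rw [Function.update_of_ne hdc, Function.update_of_ne hdc]
            rw [hupd]
            apply habs
            intro d
            by_cases hdc : d = c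
            · subst hdc
              rw [Function.update_self]
              exact hb₀
            · rw [Function.update_of_ne hdc]
              exact hN d (fun hd => hdc (Spl_unique hL hw1 hd hc))
          · have h1 : a = f (fun _ => a) := (hid a).symm
            rw [h1]
            apply hcomp
            intro c
            exact hN c (fun h => hex ⟨c, h⟩)
        · show E (f (fun c => T f g m ((i :: w) ++ [c]))) (f (fun c => T f g (m + 1) (w ++ [c])))
          apply hcomp
          intro c
          apply ih (w ++ [c]) i (by simp; omega)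
          rintro ⟨h, _⟩
          rw [← List.cons_append, Spl_append hL0 (by simp; omega)] at h
          exact hs h

end tree

theorem loop_exists {A : Type u} (E : A → A → Prop) (hsymm : ∀ x y, E x y → E y x)
    (l : ℕ) (hl : Odd l) (v : ZMod l → A) (hv : ∀ u, E (v u) (v (u + 1)))
    (f : (Fin n → A) → A) (hid : ∀ x, f (fun _ => x) = x)
    (hcomp : ∀ x y : Fin n → A, (∀ i, E (x i) (y i)) → E (f x) (f y))
    (habs : ∀ (j : Fin n) (b : Fin n → A), (∀ i, E (v 0) (b i)) →
      E (v 0) (f (Function.update b j (v 0)))) :
    ∃ x, E x x := by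
  obtain ⟨K, hK⟩ : ∃ K, K = l := ⟨l, rfl⟩
  set L := 3 * K + 1 with hLdef
  set r := rL n K L with hr
  set D := 2 * r + 1 + L with hD
  set g : List (Fin n) → A := fun w => v (lbl l K L (ext r w)) with hgdef
  have hg : ∀ w, w.length = D → Spl r K L w → g w = v 0 := by
    intro w _ hs
    show v (lbl l K L (ext r w)) = v 0
    rw [lbl_sp hs.2]
  have hstep : ∀ w i c, w.length + 1 = D → ¬ (Spl r K L (i :: w) ∧ Spl r K L w) →
      E (g (i :: w)) (g (w ++ [c])) := by
    intro w i c hw hns
    have h1 : lbl l K L (sh 1 (ext r (i :: w))) = lbl l K L (ext r (w ++ [c])) := by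
      apply Ag.lbl
      intro j hj
      rw [abs_le] at hj
      apply ext_cons_append r i c w j hj.1
      have := hj.2
      omega
    rcases lbl_step (K := K) (L := L) hl hK.ge (by omega) (ext r (i :: w)) with h | h
    · rw [h1] at h
      show E (v _) (v _)
      rcases h with h | h
      · rw [h]; exact hv _
      · rw [h]; exact hsymm _ _ (hv _)
    · exfalso
      apply hns
      refine ⟨⟨by simp; omega, h.1⟩, ⟨by omega, ?_⟩⟩
      apply Sp_of_agree _ h.2
      intro j hj
      exact ext_cons_self r i w j (by omega)
  have key := T_step (f := f) (g := g) (a := v 0) (b₀ := v (0 + 1)) (E := E) hid hcomp (hv 0) habs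
    (r := r) (K := K) (L := L) (D := D) (by omega) (by omega) hg hstep (D - 1) []
  refine ⟨T f g D [], ?_⟩
  have hDD : D = (D - 1) + 1 := by omega
  have h2 : E (f (fun i => T f g (D - 1) [i])) (f (fun _ => T f g (D - 1 + 1) [])) := by
    apply hcomp
    intro i
    apply key i (by simp; omega)
    rintro ⟨_, h, _⟩
    simp at h
  rw [hid] at h2
  rw [hDD]
  exact h2

end Pool.Agent.Q16.Loop
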